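import Pool.Agent.Helper27.BO.Final

set_option autoImplicit false

/-! MP_eb8c5c_co, spread-out simplices: every set of positions which has an equilibrium without
coinciding points over some bi-ordered group (ties allowed), possibly after adding up coordinates
in groups, is realised by a fine mixed subdivision. -/

namespace Pool.Agent.Results.MP_eb8c5c_co.Equilibrium

open Pool.Agent.Helper28.SO

universe u

theorem result (n d e : ℕ) (hn : 1 ≤ n) (he : 2 ≤ e) (U : Finset (Fin d → ℕ))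
    (hU : U.card = n) (g : Fin d → Fin e) (hg : Function.Surjective g)
    (G : Type u) [Group G] [LinearOrder G] [MulLeftMono G] [MulRightMono G]
    (y : (Fin d → ℕ) → Fin e → G)
    (hy : ∀ v ∈ U, ∀ w ∈ U, v ≠ w → ∃ c c', y v c * (y w c)⁻¹ ≠ y v c' * (y w c')⁻¹)
    (p : (Fin d → ℕ) → (Fin d → ℕ) → Fin e → ℝ)
    (p0 : ∀ v ∈ U, ∀ w ∈ U, v ≠ w → ∀ c, 0 ≤ p v w c)
    (p1 : ∀ v ∈ U, ∀ w ∈ U, v ≠ w → ∑ c, p v w c = 1)
    (p2 : ∀ v ∈ U, ∀ w ∈ U, v ≠ w → ∀ c, p v w c ≠ 0 →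
      ∀ c', y v c' * (y w c')⁻¹ ≤ y v c * (y w c)⁻¹)
    (hv : ∀ v ∈ U, ∀ x, ((∑ c ∈ Finset.univ.filter (fun c => g c = x), v c : ℕ) : ℝ) =
      ∑ w ∈ U.erase v, p v w x) :
    Realized n d U :=
  Helper27.BO.realized_of_equilibrium hn he U hU g hg y hy p p0 p1 p2 hv

end Pool.Agent.Results.MP_eb8c5c_co.Equilibrium
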