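import Pool.Agent.Helper50.SO.Five

set_option autoImplicit false

/-! MP_eb8c5c_co, spread-out simplices: the conjecture for `n ≤ 5`, in every dimension. -/

namespace Pool.Agent.Results.MP_eb8c5c_co.FewLabels

open Pool.Agent.Helper28.SO

theorem result (n d : ℕ) (hn : 1 ≤ n) (hn5 : n ≤ 5) (hd : 1 ≤ d) (U : Finset (Fin d → ℕ))
    (hU : U.card = n) (hsum : ∀ v ∈ U, ∑ c, v c = n - 1)
    (h : ∀ W ⊆ U, W.Nonempty → ∀ m : Fin d → ℕ, (∀ w ∈ W, ∀ x, m x ≤ w x) →
      ∑ x, m x ≤ n - W.card) :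
    Realized n d U :=
  Helper50.SO.realized_of_tRealized hn hd (Helper50.SO.tRealized_five_labels hn hn5 d hd) U hU
    hsum h

end Pool.Agent.Results.MP_eb8c5c_co.FewLabels
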