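import Pool.Agent.Helper28.SO.Fin

set_option autoImplicit false

/-! MP_eb8c5c_co, spread-out simplices: all vectors that admit a ladder, in particular all spread-out
sets of 0/1 vectors, are realized by a fine mixed subdivision. -/

namespace Pool.Agent.Results.MP_eb8c5c_co.Ladder

open Pool.Agent.Helper28.SO

theorem result (n d : ℕ) (hn : 1 ≤ n) (hd : 1 ≤ d) (v : Fin n → Fin d → ℕ)
    (hv : ∀ i, ∑ k, v i k = n - 1)
    (h : (∃ N : Fin n → Finset (Fin d), IsLadder v N) ∨
      (SpreadOut n d (Finset.univ.image v) ∧ ∀ l i k, l < i → v l k ≠ 0 → v i k ≤ v l k)) :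
    Realized n d (Finset.univ.image v) := by
  rcases h with ⟨N, hN⟩ | ⟨hs, hm⟩
  · exact realized_of_ladder hn hd v hv N hN
  · exact realized_of_ladder hn hd v hv _ (ladder_of_spreadOut v hs hm)

end Pool.Agent.Results.MP_eb8c5c_co.Ladder
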