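import Pool.Agent.Helper13.TS.Fold

set_option autoImplicit false

/-! MP_eb8c5c_co, spread-out simplices: every set of positions whose coordinates can be grouped in
three classes such that the vectors of class sums are spread-out is realised by a fine mixed
subdivision. -/

namespace Pool.Agent.Results.MP_eb8c5c_co.Merging

open Pool.Agent.Helper28.SO

theorem result (n d : ℕ) (hn : 1 ≤ n) (hd : 1 ≤ d) (U : Finset (Fin d → ℕ)) (hU : U.card = n)
    (hsum : ∀ v ∈ U, ∑ c, v c = n - 1) (g : Fin d → Fin 3)
    (h : ∀ W ⊆ U, W.Nonempty → ∀ m : Fin 3 → ℕ,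
      (∀ w ∈ W, ∀ x, m x ≤ ∑ c ∈ Finset.univ.filter (fun c => g c = x), w c) →
      ∑ x, m x ≤ n - W.card) :
    Realized n d U :=
  Helper13.TS.realized_of_fold hn hd U hU hsum g h

end Pool.Agent.Results.MP_eb8c5c_co.Merging
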